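import Mathlib

/-!
# Bernstein polynomials
-/

set_option autoImplicit false

namespace Pool.Agent.V1164.DDes

open intervalIntegral

noncomputable section

/-- the Bernstein polynomials, divided by factorials -/
def c (N k : ℕ) (x : ℝ) : ℝ :=
  if k ≤ N then x ^ k * (1 - x) ^ (N - k) / ((k.factorial : ℝ) * ((N - k).factorial : ℝ)) else 0

lemma continuous_c (N k : ℕ) : Continuous (c N k) := by
  unfold c
  split_ifs
  · fun_prop
  · exact continuous_const

lemma c_nonneg (N k : ℕ) {x : ℝ} (hx : x ∈ Set.Icc (0 : ℝ) 1) : 0 ≤ c N k x := by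
  unfold c
  split_ifs
  · have h1 := hx.1
    have h2 : 0 ≤ 1 - x := by linarith [hx.2]
    positivity
  · exact le_refl _

lemma hasDerivAt_c_succ (N k : ℕ) (x : ℝ) : HasDerivAt (c (N + 1) (k + 1)) (c N k x - c N (k + 1) x) x := by
  by_cases h : k + 1 ≤ N
  · have e1 : c (N + 1) (k + 1) = fun x => x ^ (k + 1) * (1 - x) ^ (N - k) /
        (((k + 1).factorial : ℝ) * ((N - k).factorial : ℝ)) := by
      funext x
      rw [c, if_pos (by omega), show N + 1 - (k + 1) = N - k by omega]
    rw [e1]
    obtain ⟨m, rfl⟩ : ∃ m, N = k + 1 + m := ⟨N - (k + 1), by omega⟩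
    rw [show k + 1 + m - k = m + 1 by omega]
    have h1 : HasDerivAt (fun x : ℝ => x ^ (k + 1)) (((k + 1 : ℕ) : ℝ) * x ^ k) x := by
      simpa using hasDerivAt_pow (k + 1) x
    have h2 : HasDerivAt (fun x : ℝ => (1 - x) ^ (m + 1)) (((m + 1 : ℕ) : ℝ) * (1 - x) ^ m * (-1)) x := by
      have h3 : HasDerivAt (fun x : ℝ => 1 - x) (-1) x := by
        simpa using (hasDerivAt_id x).const_sub 1
      simpa using h3.fun_pow (m + 1)
    convert! (h1.mul h2).div_const _ using 1
    rw [c, c, if_pos (by omega), if_pos (by omega), show k + 1 + m - k = m + 1 by omega,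
      show k + 1 + m - (k + 1) = m by omega, Nat.factorial_succ k, Nat.factorial_succ m]
    push_cast
    field_simp
    ring
  · by_cases h' : k = N
    · subst h'
      have e1 : c (k + 1) (k + 1) = fun x => x ^ (k + 1) / ((k + 1).factorial : ℝ) := by
        funext x
        rw [c, if_pos (by omega)]
        simp
      rw [e1]
      have h1 : HasDerivAt (fun x : ℝ => x ^ (k + 1)) (((k + 1 : ℕ) : ℝ) * x ^ k) x := by
        simpa using hasDerivAt_pow (k + 1) x
      convert! h1.div_const _ using 1
      rw [c, c, if_pos (le_refl _), if_neg (by omega), Nat.sub_self, Nat.factorial_succ k]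
      push_cast
      simp only [pow_zero, Nat.factorial_zero, Nat.cast_one, mul_one, sub_zero]
      field_simp
    · have e1 : c (N + 1) (k + 1) = fun _ => 0 := by
        funext x
        rw [c, if_neg (by omega)]
      rw [e1, c, c, if_neg (by omega), if_neg (by omega), sub_zero]
      exact hasDerivAt_const x 0

lemma hasDerivAt_c_zero (N : ℕ) (x : ℝ) : HasDerivAt (c (N + 1) 0) (- c N 0 x) x := by
  have e1 : c (N + 1) 0 = fun x => (1 - x) ^ (N + 1) / ((N + 1).factorial : ℝ) := by
    funext x
    rw [c, if_pos (by omega)]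
    simp
  rw [e1]
  have h2 : HasDerivAt (fun x : ℝ => (1 - x) ^ (N + 1)) (((N + 1 : ℕ) : ℝ) * (1 - x) ^ N * (-1)) x := by
    have h3 : HasDerivAt (fun x : ℝ => 1 - x) (-1) x := by
      simpa using (hasDerivAt_id x).const_sub 1
    simpa using h3.fun_pow (N + 1)
  convert! h2.div_const _ using 1
  rw [c, if_pos (by omega), Nat.sub_zero, Nat.factorial_succ N]
  push_cast
  simp only [pow_zero, Nat.factorial_zero, Nat.cast_one, one_mul]
  field_simp

/-- the upper tail -/
lemma int_up (N j : ℕ) (hj : j ≤ N) (x : ℝ) :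
    ∫ t in (0 : ℝ)..x, c N j t = ∑ k ∈ Finset.range (N + 2), if j < k then c (N + 1) k x else 0 := by
  have hd : ∀ x, HasDerivAt (fun x => ∑ k ∈ Finset.range (N + 1 - j), c (N + 1) (j + k + 1) x)
      (c N j x) x := by
    intro x
    have h1 := HasDerivAt.fun_sum fun k (_ : k ∈ Finset.range (N + 1 - j)) =>
      hasDerivAt_c_succ N (j + k) x
    have h2 : ∑ k ∈ Finset.range (N + 1 - j), (c N (j + k) x - c N (j + k + 1) x) = c N j x := by
      have h3 := Finset.sum_range_sub' (fun k => c N (j + k) x) (N + 1 - j)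
      simp only [add_assoc] at h3 ⊢
      rw [h3, add_zero, show j + (N + 1 - j) = N + 1 by omega]
      have h4 : c N (N + 1) x = 0 := by rw [c, if_neg (by omega)]
      rw [h4, sub_zero]
    rwa [h2] at h1
  rw [integral_eq_sub_of_hasDerivAt (fun t _ => hd t) ((continuous_c N j).intervalIntegrable _ _)]
  have h0 : ∑ k ∈ Finset.range (N + 1 - j), c (N + 1) (j + k + 1) 0 = 0 := by
    refine Finset.sum_eq_zero fun k hk => ?_
    rw [c]
    split_ifs
    · rw [zero_pow (by omega), zero_mul, zero_div]
    · rfl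
  rw [h0, sub_zero, show N + 2 = (j + 1) + (N + 1 - j) by omega, Finset.sum_range_add]
  have h5 : ∑ k ∈ Finset.range (j + 1), (if j < k then c (N + 1) k x else 0) = 0 := by
    refine Finset.sum_eq_zero fun k hk => ?_
    rw [Finset.mem_range] at hk
    rw [if_neg (by omega)]
  rw [h5, zero_add]
  refine Finset.sum_congr rfl fun k _ => ?_
  rw [if_pos (by omega), show j + 1 + k = j + k + 1 by ring]

/-- the lower tail -/
lemma int_dn (N j : ℕ) (hj : j ≤ N) (x : ℝ) :
    ∫ t in x..(1 : ℝ), c N j t = ∑ k ∈ Finset.range (N + 2), if k ≤ j then c (N + 1) k x else 0 := by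
  have hd : ∀ x, HasDerivAt (fun x => -∑ k ∈ Finset.range (j + 1), c (N + 1) k x) (c N j x) x := by
    intro x
    have h0 : (fun x => -∑ k ∈ Finset.range (j + 1), c (N + 1) k x) =
        fun x => -(∑ k ∈ Finset.range j, c (N + 1) (k + 1) x + c (N + 1) 0 x) := by
      funext x
      rw [Finset.sum_range_succ']
    rw [h0]
    have h1 := HasDerivAt.fun_sum fun k (_ : k ∈ Finset.range j) => hasDerivAt_c_succ N k x
    have h2 : ∑ k ∈ Finset.range j, (c N k x - c N (k + 1) x) = c N 0 x - c N j x :=
      Finset.sum_range_sub' (fun k => c N k x) j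
    rw [h2] at h1
    have h3 := (h1.fun_add (hasDerivAt_c_zero N x)).fun_neg
    convert! h3 using 1
    ring
  rw [integral_eq_sub_of_hasDerivAt (fun t _ => hd t) ((continuous_c N j).intervalIntegrable _ _)]
  have h0 : ∑ k ∈ Finset.range (j + 1), c (N + 1) k 1 = 0 := by
    refine Finset.sum_eq_zero fun k hk => ?_
    rw [Finset.mem_range] at hk
    rw [c, if_pos (by omega), sub_self, zero_pow (by omega), mul_zero, zero_div]
  rw [h0, neg_zero, zero_sub, neg_neg]
  have hsplit := Finset.sum_range_add (fun k => if k ≤ j then c (N + 1) k x else 0) (j + 1)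
    (N + 1 - j)
  rw [show (j + 1) + (N + 1 - j) = N + 2 by omega] at hsplit
  rw [hsplit]
  have h5 : ∑ k ∈ Finset.range (N + 1 - j), (if j + 1 + k ≤ j then c (N + 1) (j + 1 + k) x else 0)
      = 0 := by
    refine Finset.sum_eq_zero fun k hk => ?_
    rw [if_neg (by omega)]
  rw [h5, add_zero]
  refine Finset.sum_congr rfl fun k hk => ?_
  rw [Finset.mem_range] at hk
  rw [if_pos (by omega)]

lemma int_all (N j : ℕ) (hj : j ≤ N) :
    ∫ t in (0 : ℝ)..1, c N j t = 1 / ((N + 1).factorial : ℝ) := by
  rw [int_up N j hj, Finset.sum_eq_single (N + 1)]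
  · rw [if_pos (by omega), c, if_pos (le_refl _)]
    simp
  · intro k hk hk'
    rw [Finset.mem_range] at hk
    split_ifs
    · rw [c, if_pos (by omega), sub_self, zero_pow (by omega), mul_zero, zero_div]
    · rfl
  · intro hk
    exact absurd (Finset.mem_range.mpr (by omega)) hk

end

end Pool.Agent.V1164.DDes
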