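import Mathlib

/-!
# A positive evolution and its ratio limits
-/

set_option autoImplicit false

namespace Pool.Agent.V1164.DDes

open MeasureTheory Set Filter intervalIntegral
open scoped Topology

/-- `p_{n+1}(x) = ∫_0^x (p_n + q_n)`, `q_{n+1}(x) = ∫_x^1 p_n` -/
structure Evo (p q : ℕ → ℝ → ℝ) : Prop where
  cp : ∀ n, Continuous (p n)
  cq : ∀ n, Continuous (q n)
  hp : ∀ n x, p (n + 1) x = ∫ t in (0 : ℝ)..x, (p n t + q n t)
  hq : ∀ n x, q (n + 1) x = ∫ t in x..(1 : ℝ), p n t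

/-- nonnegativity on the unit interval -/
def NN (f : ℝ → ℝ) : Prop := ∀ x ∈ Icc (0 : ℝ) 1, 0 ≤ f x

/-- the integral over the unit interval -/
noncomputable def Int (f : ℝ → ℝ) : ℝ := ∫ t in (0 : ℝ)..1, f t

namespace Evo

variable {p q : ℕ → ℝ → ℝ} (h : Evo p q)

include h

lemma ii (n : ℕ) (a b : ℝ) : IntervalIntegrable (p n) volume a b := (h.cp n).intervalIntegrable a b

lemma iq (n : ℕ) (a b : ℝ) : IntervalIntegrable (q n) volume a b := (h.cq n).intervalIntegrable a b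

lemma is (n : ℕ) (a b : ℝ) : IntervalIntegrable (fun t => p n t + q n t) volume a b :=
  (h.ii n a b).add (h.iq n a b)

lemma shift (k : ℕ) : Evo (fun n => p (n + k)) (fun n => q (n + k)) := by
  refine ⟨fun n => h.cp _, fun n => h.cq _, fun n x => ?_, fun n x => ?_⟩
  · have := h.hp (n + k) x
    rw [show n + 1 + k = n + k + 1 by ring]
    exact this
  · have := h.hq (n + k) x
    rw [show n + 1 + k = n + k + 1 by ring]
    exact this

lemma lin {p' q' : ℕ → ℝ → ℝ} (h' : Evo p' q') (a b : ℝ) :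
    Evo (fun n x => a * p n x + b * p' n x) (fun n x => a * q n x + b * q' n x) := by
  refine ⟨fun n => ((h.cp n).const_mul a |>.add ((h'.cp n).const_mul b)),
    fun n => ((h.cq n).const_mul a |>.add ((h'.cq n).const_mul b)), fun n x => ?_, fun n x => ?_⟩
  · simp only [h.hp, h'.hp]
    rw [← intervalIntegral.integral_const_mul, ← intervalIntegral.integral_const_mul, ← intervalIntegral.integral_add]
    · refine integral_congr fun t _ => ?_
      ring
    · exact (h.is n 0 x).const_mul a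
    · exact (h'.is n 0 x).const_mul b
  · simp only [h.hq, h'.hq]
    rw [← intervalIntegral.integral_const_mul, ← intervalIntegral.integral_const_mul, ← intervalIntegral.integral_add]
    · exact (h.ii n x 1).const_mul a
    · exact (h'.ii n x 1).const_mul b

variable (h0 : NN (p 0)) (h0' : NN (q 0))

include h0 h0'

lemma nn (n : ℕ) : NN (p n) ∧ NN (q n) := by
  induction n with
  | zero => exact ⟨h0, h0'⟩
  | succ n ih =>
    refine ⟨fun x hx => ?_, fun x hx => ?_⟩
    · rw [h.hp]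
      refine integral_nonneg hx.1 fun t ht => ?_
      have ht' : t ∈ Icc (0 : ℝ) 1 := ⟨ht.1, ht.2.trans hx.2⟩
      exact add_nonneg (ih.1 t ht') (ih.2 t ht')
    · rw [h.hq]
      exact integral_nonneg hx.2 fun t ht => ih.1 t ⟨hx.1.trans ht.1, ht.2⟩

lemma p_mono (n : ℕ) {x y : ℝ} (hx : x ∈ Icc (0 : ℝ) 1) (hy : y ∈ Icc (0 : ℝ) 1) (hxy : x ≤ y) :
    p (n + 1) x ≤ p (n + 1) y := by
  rw [h.hp, h.hp, ← integral_add_adjacent_intervals (h.is n 0 x) (h.is n x y)]
  have : 0 ≤ ∫ t in x..y, (p n t + q n t) := by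
    refine integral_nonneg hxy fun t ht => ?_
    have ht' : t ∈ Icc (0 : ℝ) 1 := ⟨hx.1.trans ht.1, ht.2.trans hy.2⟩
    exact add_nonneg ((h.nn h0 h0' n).1 t ht') ((h.nn h0 h0' n).2 t ht')
  linarith

omit h0 h0' in
lemma s_eq (n : ℕ) (x : ℝ) : p (n + 1) x + q (n + 1) x = Int (p n) + ∫ t in (0 : ℝ)..x, q n t := by
  rw [h.hp, h.hq, Int, intervalIntegral.integral_add (h.ii n 0 x) (h.iq n 0 x),
    ← integral_add_adjacent_intervals (h.ii n 0 x) (h.ii n x 1)]
  ring

lemma s_ge (n : ℕ) {x : ℝ} (hx : x ∈ Icc (0 : ℝ) 1) : Int (p n) ≤ p (n + 1) x + q (n + 1) x := by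
  rw [h.s_eq]
  have : 0 ≤ ∫ t in (0 : ℝ)..x, q n t :=
    integral_nonneg hx.1 fun t ht => (h.nn h0 h0' n).2 t ⟨ht.1, ht.2.trans hx.2⟩
  linarith

lemma s_le (n : ℕ) {x : ℝ} (hx : x ∈ Icc (0 : ℝ) 1) :
    p (n + 1) x + q (n + 1) x ≤ Int (fun t => p n t + q n t) := by
  rw [h.s_eq, Int, Int, intervalIntegral.integral_add (h.ii n 0 1) (h.iq n 0 1),
    ← integral_add_adjacent_intervals (h.iq n 0 x) (h.iq n x 1)]
  have : 0 ≤ ∫ t in x..1, q n t :=
    integral_nonneg hx.2 fun t ht => (h.nn h0 h0' n).2 t ⟨hx.1.trans ht.1, ht.2⟩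
  linarith

lemma p_ge (n : ℕ) {x : ℝ} (hx : x ∈ Icc (0 : ℝ) 1) : x * Int (p n) ≤ p (n + 2) x := by
  rw [h.hp]
  have h1 : x * Int (p n) = ∫ _t in (0 : ℝ)..x, Int (p n) := by simp
  rw [h1]
  exact integral_mono_on hx.1 (by simp) (h.is _ 0 x) fun t ht =>
    h.s_ge h0 h0' n ⟨ht.1, ht.2.trans hx.2⟩

lemma p_le (n : ℕ) {x : ℝ} (hx : x ∈ Icc (0 : ℝ) 1) :
    p (n + 2) x ≤ x * Int (fun t => p n t + q n t) := by
  rw [h.hp]
  have h1 : x * Int (fun t => p n t + q n t) =
      ∫ _t in (0 : ℝ)..x, Int (fun t => p n t + q n t) := by simp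
  rw [h1]
  exact integral_mono_on hx.1 (h.is _ 0 x) (by simp) fun t ht =>
    h.s_le h0 h0' n ⟨ht.1, ht.2.trans hx.2⟩

lemma q_le (n : ℕ) {x : ℝ} (hx : x ∈ Icc (0 : ℝ) 1) :
    q (n + 2) x ≤ (1 - x) * Int (fun t => p n t + q n t) := by
  rw [h.hq]
  have h1 : (1 - x) * Int (fun t => p n t + q n t) =
      ∫ _t in x..(1 : ℝ), Int (fun t => p n t + q n t) := by simp
  rw [h1]
  refine integral_mono_on hx.2 (h.ii _ x 1) (by simp) fun t ht => ?_
  have ht' : t ∈ Icc (0 : ℝ) 1 := ⟨hx.1.trans ht.1, ht.2⟩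
  have h2 := h.s_le h0 h0' n ht'
  have h3 := (h.nn h0 h0' (n + 1)).2 t ht'
  linarith

lemma q_ge (n : ℕ) {x : ℝ} (hx : x ∈ Icc (0 : ℝ) 1) :
    (1 - x) * Int (p (n + 1)) ≤ q (n + 2) x := by
  rw [h.hq, Int, ← integral_add_adjacent_intervals (h.ii (n + 1) 0 x) (h.ii (n + 1) x 1)]
  have h1 : ∫ t in (0 : ℝ)..x, p (n + 1) t ≤ x * p (n + 1) x := by
    have h2 : x * p (n + 1) x = ∫ _t in (0 : ℝ)..x, p (n + 1) x := by simp
    rw [h2]
    exact integral_mono_on hx.1 (h.ii _ 0 x) (by simp) fun t ht =>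
      h.p_mono h0 h0' n ⟨ht.1, ht.2.trans hx.2⟩ hx ht.2
  have h3 : (1 - x) * p (n + 1) x ≤ ∫ t in x..1, p (n + 1) t := by
    have h2 : (1 - x) * p (n + 1) x = ∫ _t in x..1, p (n + 1) x := by simp
    rw [h2]
    exact integral_mono_on hx.2 (by simp) (h.ii _ x 1) fun t ht =>
      h.p_mono h0 h0' n hx ⟨hx.1.trans ht.1, ht.2⟩ ht.1
  have hx0 := hx.1
  have hx1 : 0 ≤ 1 - x := by linarith [hx.2]
  nlinarith [mul_le_mul_of_nonneg_left h1 hx1, mul_le_mul_of_nonneg_left h3 hx0]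

lemma T_anti (n : ℕ) : Int (fun t => p (n + 1) t + q (n + 1) t) ≤ Int (fun t => p n t + q n t) := by
  rw [Int]
  have h1 : Int (fun t => p n t + q n t) =
      ∫ _t in (0 : ℝ)..1, Int (fun t => p n t + q n t) := by simp
  rw [h1]
  exact integral_mono_on zero_le_one (h.is _ 0 1) (by simp) fun t ht => h.s_le h0 h0' n ht

lemma T_one : Int (fun t => p 1 t + q 1 t) ≤ Int (p 0) + Int (p 1) := by
  rw [Int, intervalIntegral.integral_add (h.ii 1 0 1) (h.iq 1 0 1)]
  have h1 : ∫ t in (0 : ℝ)..1, q 1 t ≤ Int (p 0) := by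
    have h2 : Int (p 0) = ∫ _t in (0 : ℝ)..1, Int (p 0) := by simp
    rw [h2]
    refine integral_mono_on zero_le_one (h.iq _ 0 1) (by simp) fun t ht => ?_
    rw [h.hq, Int, ← integral_add_adjacent_intervals (h.ii 0 0 t) (h.ii 0 t 1)]
    have : 0 ≤ ∫ s in (0 : ℝ)..t, p 0 s :=
      integral_nonneg ht.1 fun s hs => h0 s ⟨hs.1, hs.2.trans ht.2⟩
    linarith
  have h3 : ∫ t in (0 : ℝ)..1, p 1 t = Int (p 1) := rfl
  linarith

lemma P_nonneg (n : ℕ) : 0 ≤ Int (p n) :=
  integral_nonneg zero_le_one fun t ht => (h.nn h0 h0' n).1 t ht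

lemma P_two (n : ℕ) : Int (p n) / 2 ≤ Int (p (n + 2)) := by
  have h1 : ∫ t in (0 : ℝ)..1, t * Int (p n) = Int (p n) / 2 := by
    rw [intervalIntegral.integral_mul_const, integral_id]; ring
  rw [← h1]
  exact integral_mono_on zero_le_one
    ((by fun_prop : Continuous fun t : ℝ => t * Int (p n)).intervalIntegrable _ _)
    (h.ii _ 0 1) fun t ht => h.p_ge h0 h0' n ht

lemma P_three (n : ℕ) : Int (p n) / 6 ≤ Int (p (n + 3)) := by
  have h2 : ∀ x ∈ Icc (0 : ℝ) 1, x ^ 2 / 2 * Int (p n) ≤ p (n + 3) x := by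
    intro x hx
    rw [h.hp]
    have h3 : ∫ t in (0 : ℝ)..x, t * Int (p n) = x ^ 2 / 2 * Int (p n) := by
      rw [intervalIntegral.integral_mul_const, integral_id]; ring
    rw [← h3]
    refine integral_mono_on hx.1
      ((by fun_prop : Continuous fun t : ℝ => t * Int (p n)).intervalIntegrable _ _)
      (h.is _ 0 x) fun t ht => ?_
    have ht' : t ∈ Icc (0 : ℝ) 1 := ⟨ht.1, ht.2.trans hx.2⟩
    have h4 := h.p_ge h0 h0' n ht'
    have h5 := (h.nn h0 h0' (n + 2)).2 t ht'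
    linarith
  have h1 : ∫ t in (0 : ℝ)..1, t ^ 2 / 2 * Int (p n) = Int (p n) / 6 := by
    rw [intervalIntegral.integral_mul_const, intervalIntegral.integral_div, integral_pow]; norm_num
    ring
  rw [← h1]
  exact integral_mono_on zero_le_one
    ((by fun_prop : Continuous fun t : ℝ => t ^ 2 / 2 * Int (p n)).intervalIntegrable _ _)
    (h.ii _ 0 1) h2

/-- uniform comparability after five steps -/
lemma five {x : ℝ} (hx : x ∈ Icc (0 : ℝ) 1) :
    (Int (p 0) + Int (p 1)) / 12 * x ≤ p 5 x ∧ p 5 x ≤ (Int (p 0) + Int (p 1)) * x ∧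
    (Int (p 0) + Int (p 1)) / 12 * (1 - x) ≤ q 5 x ∧
    q 5 x ≤ (Int (p 0) + Int (p 1)) * (1 - x) := by
  have a0 := h.P_nonneg h0 h0' 0
  have a1 := h.P_nonneg h0 h0' 1
  have b1 : Int (p 1) / 2 ≤ Int (p 3) := h.P_two h0 h0' 1
  have b2 : Int (p 0) / 6 ≤ Int (p 3) := h.P_three h0 h0' 0
  have b3 : Int (p 0) / 2 ≤ Int (p 2) := h.P_two h0 h0' 0
  have b4 : Int (p 2) / 2 ≤ Int (p 4) := h.P_two h0 h0' 2
  have b5 : Int (p 1) / 6 ≤ Int (p 4) := h.P_three h0 h0' 1
  have c1 := h.T_one h0 h0'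
  have c2 := h.T_anti h0 h0' 1
  have c3 := h.T_anti h0 h0' 2
  have c4 : Int (fun t => p 3 t + q 3 t) ≤ Int (p 0) + Int (p 1) := le_trans (le_trans c3 c2) c1
  have hx0 := hx.1
  have hx1 : 0 ≤ 1 - x := by linarith [hx.2]
  have d3 : (Int (p 0) + Int (p 1)) / 12 ≤ Int (p 3) := by linarith
  have d4 : (Int (p 0) + Int (p 1)) / 12 ≤ Int (p 4) := by linarith
  have e1 : x * Int (p 3) ≤ p 5 x := h.p_ge h0 h0' 3 hx
  have e2 : p 5 x ≤ x * Int (fun t => p 3 t + q 3 t) := h.p_le h0 h0' 3 hx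
  have e3 : (1 - x) * Int (p 4) ≤ q 5 x := h.q_ge h0 h0' 3 hx
  have e4 : q 5 x ≤ (1 - x) * Int (fun t => p 3 t + q 3 t) := h.q_le h0 h0' 3 hx
  refine ⟨?_, ?_, ?_, ?_⟩
  · nlinarith [mul_le_mul_of_nonneg_left d3 hx0]
  · nlinarith [mul_le_mul_of_nonneg_left c4 hx0]
  · nlinarith [mul_le_mul_of_nonneg_left d4 hx1]
  · nlinarith [mul_le_mul_of_nonneg_left c4 hx1]

end Evo

/-! ### contraction -/

/-- `m h ≤ f ≤ M h` on the unit interval, componentwise, at time `n` -/
def Bd (m M : ℝ) (p q p' q' : ℕ → ℝ → ℝ) (n : ℕ) : Prop :=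
  ∀ x ∈ Icc (0 : ℝ) 1, m * p' n x ≤ p n x ∧ p n x ≤ M * p' n x ∧
    m * q' n x ≤ q n x ∧ q n x ≤ M * q' n x

section contraction

variable {p q p' q' : ℕ → ℝ → ℝ} (h : Evo p q) (h' : Evo p' q')

include h h'

lemma Bd.add {m M : ℝ} {n : ℕ} (hb : Bd m M p q p' q' n) (k : ℕ) : Bd m M p q p' q' (n + k) := by
  have u := ((h.lin h' 1 (-m)).shift n)
  have v := ((h.lin h' (-1) M).shift n)
  have u1 := u.nn (p := fun k x => 1 * p (k + n) x + -m * p' (k + n) x)
    (q := fun k x => 1 * q (k + n) x + -m * q' (k + n) x)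
    (fun x hx => by have := (hb x hx).1; simp only [zero_add]; linarith)
    (fun x hx => by have := (hb x hx).2.2.1; simp only [zero_add]; linarith) k
  have v1 := v.nn (p := fun k x => -1 * p (k + n) x + M * p' (k + n) x)
    (q := fun k x => -1 * q (k + n) x + M * q' (k + n) x)
    (fun x hx => by have := (hb x hx).2.1; simp only [zero_add]; linarith)
    (fun x hx => by have := (hb x hx).2.2.2; simp only [zero_add]; linarith) k
  intro x hx
  have a1 := u1.1 x hx
  have a2 := u1.2 x hx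
  have a3 := v1.1 x hx
  have a4 := v1.2 x hx
  simp only [add_comm k n] at a1 a2 a3 a4
  exact ⟨by linarith, by linarith, by linarith, by linarith⟩

variable (h0 : NN (p' 0)) (h0' : NN (q' 0)) (hpos : ∀ n, 0 < Int (p' n) + Int (p' (n + 1)))

include h0 h0' hpos

lemma Bd.contract {m M : ℝ} {n : ℕ} (hb : Bd m M p q p' q' n) :
    ∃ m' M', m ≤ m' ∧ M' ≤ M ∧ M' - m' = 11 / 12 * (M - m) ∧ Bd m' M' p q p' q' (n + 5) := by
  have u := ((h.lin h' 1 (-m)).shift n)
  have v := ((h.lin h' (-1) M).shift n)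
  have w := h'.shift n
  have w0 := h'.nn h0 h0' n
  have hu0 : NN ((fun k x => 1 * p (k + n) x + -m * p' (k + n) x) 0) :=
    fun x hx => by have := (hb x hx).1; simp only [zero_add]; linarith
  have hu0' : NN ((fun k x => 1 * q (k + n) x + -m * q' (k + n) x) 0) :=
    fun x hx => by have := (hb x hx).2.2.1; simp only [zero_add]; linarith
  have hv0 : NN ((fun k x => -1 * p (k + n) x + M * p' (k + n) x) 0) :=
    fun x hx => by have := (hb x hx).2.1; simp only [zero_add]; linarith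
  have hv0' : NN ((fun k x => -1 * q (k + n) x + M * q' (k + n) x) 0) :=
    fun x hx => by have := (hb x hx).2.2.2; simp only [zero_add]; linarith
  have hw0 : NN ((fun k => p' (k + n)) 0) := by simpa using w0.1
  have hw0' : NN ((fun k => q' (k + n)) 0) := by simpa using w0.2
  set U := Int (fun x => 1 * p (0 + n) x + -m * p' (0 + n) x) +
    Int (fun x => 1 * p (1 + n) x + -m * p' (1 + n) x) with hU
  set V := Int (fun x => -1 * p (0 + n) x + M * p' (0 + n) x) +
    Int (fun x => -1 * p (1 + n) x + M * p' (1 + n) x) with hV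
  set W := Int (p' (0 + n)) + Int (p' (1 + n)) with hW
  have hWpos : 0 < W := by
    have := hpos n
    rw [hW, zero_add, add_comm 1 n]
    exact this
  have hint : ∀ (a b : ℝ) (k : ℕ), Int (fun x => a * p k x + b * p' k x) =
      a * Int (p k) + b * Int (p' k) := by
    intro a b k
    rw [Int, Int, Int, intervalIntegral.integral_add ((h.ii k 0 1).const_mul a) ((h'.ii k 0 1).const_mul b),
      intervalIntegral.integral_const_mul, intervalIntegral.integral_const_mul]
  have hUV : U + V = (M - m) * W := by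
    rw [hU, hV, hW, hint, hint, hint, hint]
    ring
  have hUnn : 0 ≤ U := by
    have a1 := u.P_nonneg hu0 hu0' 0
    have a2 := u.P_nonneg hu0 hu0' 1
    exact add_nonneg a1 a2
  have hVnn : 0 ≤ V := by
    have a1 := v.P_nonneg hv0 hv0' 0
    have a2 := v.P_nonneg hv0 hv0' 1
    exact add_nonneg a1 a2
  refine ⟨m + U / (12 * W), M - V / (12 * W), by
    have : 0 ≤ U / (12 * W) := by positivity
    linarith, by
    have : 0 ≤ V / (12 * W) := by positivity
    linarith, ?_, ?_⟩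
  · have : U / (12 * W) + V / (12 * W) = (M - m) / 12 := by
      rw [← add_div, hUV]
      field_simp
    linarith
  · intro x hx
    obtain ⟨u1, -, u3, -⟩ := u.five hu0 hu0' hx
    obtain ⟨v1, -, v3, -⟩ := v.five hv0 hv0' hx
    obtain ⟨-, w2, -, w4⟩ := w.five hw0 hw0' hx
    simp only [add_comm 5 n] at u1 u3 v1 v3 w2 w4
    have e1 : U / (12 * W) * p' (n + 5) x ≤ U / 12 * x := by
      calc U / (12 * W) * p' (n + 5) x ≤ U / (12 * W) * (W * x) :=
            mul_le_mul_of_nonneg_left w2 (by positivity)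
        _ = U / 12 * x := by field_simp
    have e2 : U / (12 * W) * q' (n + 5) x ≤ U / 12 * (1 - x) := by
      calc U / (12 * W) * q' (n + 5) x ≤ U / (12 * W) * (W * (1 - x)) :=
            mul_le_mul_of_nonneg_left w4 (by positivity)
        _ = U / 12 * (1 - x) := by field_simp
    have e3 : V / (12 * W) * p' (n + 5) x ≤ V / 12 * x := by
      calc V / (12 * W) * p' (n + 5) x ≤ V / (12 * W) * (W * x) :=
            mul_le_mul_of_nonneg_left w2 (by positivity)
        _ = V / 12 * x := by field_simp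
    have e4 : V / (12 * W) * q' (n + 5) x ≤ V / 12 * (1 - x) := by
      calc V / (12 * W) * q' (n + 5) x ≤ V / (12 * W) * (W * (1 - x)) :=
            mul_le_mul_of_nonneg_left w4 (by positivity)
        _ = V / 12 * (1 - x) := by field_simp
    refine ⟨?_, ?_, ?_, ?_⟩
    · rw [add_mul]; linarith
    · rw [sub_mul]; linarith
    · rw [add_mul]; linarith
    · rw [sub_mul]; linarith

end contraction

/-- the ratio limit theorem -/
theorem ratio_limit {p q p' q' : ℕ → ℝ → ℝ} (h : Evo p q) (h' : Evo p' q')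
    (g0 : NN (p 0)) (g0' : NN (q 0)) (h0 : NN (p' 0)) (h0' : NN (q' 0))
    (gpos : 0 < Int (p 0) + Int (p 1)) (hpos : ∀ n, 0 < Int (p' n) + Int (p' (n + 1)))
    (hT : ∀ n, 0 < Int (fun t => p' n t + q' n t)) :
    ∃ L : ℝ, 0 < L ∧ Tendsto (fun n => Int (fun t => p n t + q n t) /
      Int (fun t => p' n t + q' n t)) atTop (𝓝 L) := by
  set F := Int (p 0) + Int (p 1) with hF
  set H := Int (p' 0) + Int (p' 1) with hH
  have hHpos : 0 < H := hpos 0
  -- starting bounds
  have hstart : Bd (F / (12 * H)) (12 * F / H) p q p' q' 5 := by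
    intro x hx
    obtain ⟨a1, a2, a3, a4⟩ := h.five g0 g0' hx
    obtain ⟨b1, b2, b3, b4⟩ := h'.five h0 h0' hx
    have hx0 := hx.1
    have hx1 : 0 ≤ 1 - x := by linarith [hx.2]
    refine ⟨?_, ?_, ?_, ?_⟩
    · calc F / (12 * H) * p' 5 x ≤ F / (12 * H) * (H * x) :=
            mul_le_mul_of_nonneg_left b2 (by positivity)
        _ = F / 12 * x := by field_simp
        _ ≤ p 5 x := a1
    · calc p 5 x ≤ F * x := a2
        _ = 12 * F / H * (H / 12 * x) := by field_simp
        _ ≤ 12 * F / H * p' 5 x := mul_le_mul_of_nonneg_left b1 (by positivity)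
    · calc F / (12 * H) * q' 5 x ≤ F / (12 * H) * (H * (1 - x)) :=
            mul_le_mul_of_nonneg_left b4 (by positivity)
        _ = F / 12 * (1 - x) := by field_simp
        _ ≤ q 5 x := a3
    · calc q 5 x ≤ F * (1 - x) := a4
        _ = 12 * F / H * (H / 12 * (1 - x)) := by field_simp
        _ ≤ 12 * F / H * q' 5 x := mul_le_mul_of_nonneg_left b3 (by positivity)
  set G := 12 * F / H - F / (12 * H) with hG
  have hseq : ∀ k : ℕ, ∃ m M, F / (12 * H) ≤ m ∧ M - m = (11 / 12) ^ k * G ∧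
      Bd m M p q p' q' (5 + 5 * k) := by
    intro k
    induction k with
    | zero => exact ⟨_, _, le_refl _, by simp [hG], hstart⟩
    | succ k ih =>
      obtain ⟨m, M, h1, h2, h3⟩ := ih
      obtain ⟨m', M', h4, -, h6, h7⟩ := h3.contract h h' h0 h0' hpos
      refine ⟨m', M', h1.trans h4, ?_, ?_⟩
      · rw [h6, h2, pow_succ]; ring
      · rw [show 5 + 5 * (k + 1) = 5 + 5 * k + 5 by ring]
        exact h7
  set R : ℕ → ℝ := fun n => Int (fun t => p n t + q n t) / Int (fun t => p' n t + q' n t) with hR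
  have hRb : ∀ (m M : ℝ) (n : ℕ), Bd m M p q p' q' n → m ≤ R n ∧ R n ≤ M := by
    intro m M n hb
    have i1 : IntervalIntegrable (fun t => p n t + q n t) volume 0 1 := h.is n 0 1
    have i2 : IntervalIntegrable (fun t => p' n t + q' n t) volume 0 1 := h'.is n 0 1
    constructor
    · rw [hR]
      simp only
      rw [le_div_iff₀ (hT n), Int, Int, ← intervalIntegral.integral_const_mul]
      refine integral_mono_on zero_le_one (i2.const_mul m) i1 fun t ht => ?_
      have := hb t ht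
      linarith [this.1, this.2.2.1]
    · rw [hR]
      simp only
      rw [div_le_iff₀ (hT n), Int, Int, ← intervalIntegral.integral_const_mul]
      refine integral_mono_on zero_le_one i1 (i2.const_mul M) fun t ht => ?_
      have := hb t ht
      linarith [this.2.1, this.2.2.2]
  have hlow : ∀ n, 5 ≤ n → F / (12 * H) ≤ R n := by
    intro n hn
    have := hstart.add h h' (n - 5)
    rw [show 5 + (n - 5) = n by omega] at this
    exact (hRb _ _ _ this).1
  have hcau : CauchySeq R := by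
    rw [Metric.cauchySeq_iff]
    intro ε hε
    have hlim : Tendsto (fun k : ℕ => (11 / 12 : ℝ) ^ k * G) atTop (𝓝 (0 * G)) :=
      (tendsto_pow_atTop_nhds_zero_of_lt_one (by norm_num) (by norm_num)).mul_const G
    rw [zero_mul] at hlim
    obtain ⟨k, hk⟩ := (hlim.eventually (gt_mem_nhds hε)).exists
    obtain ⟨m, M, h1, h2, h3⟩ := hseq k
    refine ⟨5 + 5 * k, fun a ha b hb => ?_⟩
    have ba := h3.add h h' (a - (5 + 5 * k))
    have bb := h3.add h h' (b - (5 + 5 * k))
    rw [show 5 + 5 * k + (a - (5 + 5 * k)) = a by omega] at ba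
    rw [show 5 + 5 * k + (b - (5 + 5 * k)) = b by omega] at bb
    have ra := hRb _ _ _ ba
    have rb := hRb _ _ _ bb
    rw [Real.dist_eq, abs_lt]
    constructor <;> linarith [ra.1, ra.2, rb.1, rb.2]
  obtain ⟨L, hL⟩ := cauchySeq_tendsto_of_complete hcau
  refine ⟨L, ?_, hL⟩
  have h1 : F / (12 * H) ≤ L := ge_of_tendsto hL (eventually_atTop.mpr ⟨5, hlow⟩)
  have h2 : 0 < F / (12 * H) := by positivity
  linarith

end Pool.Agent.V1164.DDes
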