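import Pool.Agent.V1164.DDes.Defs
import Pool.Agent.V1164.DDes.Bern
import Pool.Agent.V1164.DDes.Evo

/-!
# The recursion for permutations with a given double descent set
-/

set_option autoImplicit false

namespace Pool.Agent.V1164.DDes

open Equiv

noncomputable section

/-- append the last value `k` to the word of `π` -/
def extFun {n : ℕ} (k : Fin (n + 1)) (π : Perm (Fin n)) : Fin (n + 1) → Fin (n + 1) :=
  Fin.lastCases k fun i => k.succAbove (π i)

lemma extFun_last {n : ℕ} (k : Fin (n + 1)) (π : Perm (Fin n)) : extFun k π (Fin.last n) = k := by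
  simp [extFun]

lemma extFun_castSucc {n : ℕ} (k : Fin (n + 1)) (π : Perm (Fin n)) (i : Fin n) :
    extFun k π i.castSucc = k.succAbove (π i) := by
  simp [extFun]

lemma extFun_inj {n : ℕ} (k : Fin (n + 1)) (π : Perm (Fin n)) :
    Function.Injective (extFun k π) := by
  intro i j
  refine Fin.lastCases ?_ (fun i => ?_) i <;> refine Fin.lastCases ?_ (fun j => ?_) j
  · intro _; rfl
  · intro h
    rw [extFun_last, extFun_castSucc] at h
    exact absurd h.symm (Fin.succAbove_ne k _)
  · intro h
    rw [extFun_last, extFun_castSucc] at h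
    exact absurd h (Fin.succAbove_ne k _)
  · intro h
    rw [extFun_castSucc, extFun_castSucc] at h
    rw [π.injective (Fin.succAbove_right_injective h)]

/-- append the last value `k` to the word of `π` -/
def ext {n : ℕ} (p : Fin (n + 1) × Perm (Fin n)) : Perm (Fin (n + 1)) :=
  Equiv.ofBijective (extFun p.1 p.2) (Finite.injective_iff_bijective.mp (extFun_inj p.1 p.2))

lemma ext_last {n : ℕ} (p : Fin (n + 1) × Perm (Fin n)) : ext p (Fin.last n) = p.1 :=
  extFun_last p.1 p.2

lemma ext_castSucc {n : ℕ} (p : Fin (n + 1) × Perm (Fin n)) (i : Fin n) :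
    ext p i.castSucc = p.1.succAbove (p.2 i) :=
  extFun_castSucc p.1 p.2 i

lemma ext_bijective (n : ℕ) : Function.Bijective (ext (n := n)) := by
  rw [Fintype.bijective_iff_injective_and_card]
  constructor
  · rintro ⟨k, π⟩ ⟨k', π'⟩ h
    have h1 : k = k' := by
      have h2 := ext_last (k, π)
      rw [h, ext_last] at h2
      exact h2.symm
    subst h1
    have h2 : π = π' := by
      ext1 i
      have h3 := ext_castSucc (k, π) i
      have h4 := ext_castSucc (k, π') i
      rw [h, h4] at h3
      exact (Fin.succAbove_right_injective h3).symm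
    rw [h2]
  · rw [Fintype.card_prod, Fintype.card_perm, Fintype.card_perm, Fintype.card_fin,
      Fintype.card_fin, Nat.factorial_succ]

/-- the last value -/
def lv {n : ℕ} (π : Perm (Fin (n + 1))) : Fin (n + 1) := π (Fin.last n)

/-- is the last step an ascent? -/
def up {n : ℕ} (π : Perm (Fin (n + 2))) : Prop := π (Fin.last n).castSucc < π (Fin.last (n + 1))

lemma lv_ext {n : ℕ} (p : Fin (n + 1) × Perm (Fin n)) : lv (ext p) = p.1 := ext_last p

lemma up_ext {n : ℕ} (p : Fin (n + 2) × Perm (Fin (n + 1))) :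
    up (ext p) ↔ (lv p.2).val < p.1.val := by
  rw [up, ext_last, ext_castSucc, Fin.succAbove_lt_iff_castSucc_lt]
  rfl

lemma isDD_ext {n : ℕ} (p : Fin (n + 3) × Perm (Fin (n + 2))) (i : ℕ) :
    IsDD (ext p) i ↔ IsDD p.2 i ∨ (i = n + 2 ∧ ¬ up p.2 ∧ ¬ up (ext p)) := by
  constructor
  · rintro ⟨a, b, c, ha, hb, hc, h1, h2⟩
    by_cases hi : i = n + 2
    · right
      refine ⟨hi, ?_, ?_⟩
      · have ea : a = (Fin.last n).castSucc.castSucc := by
          ext1; simp; omega
        have eb : b = (Fin.last (n + 1)).castSucc := by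
          ext1; simp; omega
        rw [ea, eb, ext_castSucc, ext_castSucc, Fin.succAbove_lt_succAbove_iff] at h1
        rw [up]
        exact not_lt.mpr h1.le
      · have eb : b = (Fin.last (n + 1)).castSucc := by
          ext1; simp; omega
        have ec : c = Fin.last (n + 2) := by
          ext1; simp; omega
        rw [up, ← eb, ← ec]
        exact not_lt.mpr h2.le
    · left
      have hc' : c.val < n + 2 := by have := c.isLt; omega
      obtain ⟨a', rfl⟩ : ∃ a' : Fin (n + 2), a = a'.castSucc := ⟨⟨a.val, by omega⟩, rfl⟩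
      obtain ⟨b', rfl⟩ : ∃ b' : Fin (n + 2), b = b'.castSucc := ⟨⟨b.val, by omega⟩, rfl⟩
      obtain ⟨c', rfl⟩ : ∃ c' : Fin (n + 2), c = c'.castSucc := ⟨⟨c.val, hc'⟩, rfl⟩
      refine ⟨a', b', c', ha, hb, hc, ?_, ?_⟩
      · rw [ext_castSucc, ext_castSucc, Fin.succAbove_lt_succAbove_iff] at h1
        exact h1
      · rw [ext_castSucc, ext_castSucc, Fin.succAbove_lt_succAbove_iff] at h2
        exact h2
  · rintro (⟨a, b, c, ha, hb, hc, h1, h2⟩ | ⟨hi, h1, h2⟩)
    · refine ⟨a.castSucc, b.castSucc, c.castSucc, ha, hb, hc, ?_, ?_⟩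
      · rw [ext_castSucc, ext_castSucc, Fin.succAbove_lt_succAbove_iff]; exact h1
      · rw [ext_castSucc, ext_castSucc, Fin.succAbove_lt_succAbove_iff]; exact h2
    · refine ⟨(Fin.last n).castSucc.castSucc, (Fin.last (n + 1)).castSucc, Fin.last (n + 2),
        by simp [hi], by simp [hi], by simp [hi], ?_, ?_⟩
      · rw [ext_castSucc, ext_castSucc, Fin.succAbove_lt_succAbove_iff]
        rw [up, not_lt] at h1
        refine lt_of_le_of_ne h1 fun h => ?_
        have := p.2.injective h
        simp [Fin.ext_iff] at this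
      · rw [up, not_lt] at h2
        refine lt_of_le_of_ne h2 fun h => ?_
        have := (ext p).injective h
        simp [Fin.ext_iff] at this

lemma mem_DD {n : ℕ} (π : Perm (Fin n)) (i : ℕ) : i ∈ DD π ↔ IsDD π i := by
  classical
  rw [DD, Finset.mem_filter, Finset.mem_range]
  constructor
  · exact fun h => h.2
  · rintro ⟨a, b, c, ha, hb, hc, h⟩
    exact ⟨by have := c.isLt; omega, ⟨a, b, c, ha, hb, hc, h⟩⟩

lemma DD_lt {n : ℕ} {π : Perm (Fin n)} {i : ℕ} (h : i ∈ DD π) : i < n := by
  rw [mem_DD] at h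
  obtain ⟨a, b, c, ha, hb, hc, h⟩ := h
  have := c.isLt; omega

/-- for `I ⊆ [0, n+2)` -/
lemma DD_ext_eq {n : ℕ} (p : Fin (n + 3) × Perm (Fin (n + 2))) {I : Finset ℕ}
    (hI : ∀ i ∈ I, i < n + 2) : DD (ext p) = I ↔ DD p.2 = I ∧ (up p.2 ∨ up (ext p)) := by
  constructor
  · intro h
    have h1 : ¬ IsDD (ext p) (n + 2) := by
      rw [← mem_DD, h]
      intro h2
      exact absurd (hI _ h2) (lt_irrefl _)
    rw [isDD_ext] at h1
    push Not at h1
    refine ⟨?_, ?_⟩
    · ext i
      rw [mem_DD]
      constructor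
      · intro h2
        rw [← h, mem_DD, isDD_ext]
        exact Or.inl h2
      · intro h2
        have h3 := hI i h2
        rw [← h, mem_DD, isDD_ext] at h2
        rcases h2 with h2 | h2
        · exact h2
        · omega
    · have := h1.2 rfl
      by_cases hu : up p.2
      · exact Or.inl hu
      · exact Or.inr (this hu)
  · rintro ⟨h1, h2⟩
    ext i
    rw [mem_DD, isDD_ext, ← mem_DD, h1]
    constructor
    · rintro (h3 | ⟨_, h3, h4⟩)
      · exact h3
      · rcases h2 with h2 | h2
        · exact absurd h2 h3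
        · exact absurd h2 h4
    · exact Or.inl

open Classical in
/-- the density of the permutations with double descent set `I` ending with an ascent -/
def U (I : Finset ℕ) (n : ℕ) (x : ℝ) : ℝ :=
  ∑ π : Perm (Fin (n + 2)), if DD π = I ∧ up π then c (n + 1) (lv π).val x else 0

open Classical in
/-- the density of the permutations with double descent set `I` ending with a descent -/
def D (I : Finset ℕ) (n : ℕ) (x : ℝ) : ℝ :=
  ∑ π : Perm (Fin (n + 2)), if DD π = I ∧ ¬ up π then c (n + 1) (lv π).val x else 0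

lemma continuous_U (I : Finset ℕ) (n : ℕ) : Continuous (U I n) := by
  unfold U
  refine continuous_finsetSum _ fun π _ => ?_
  split_ifs
  · exact continuous_c _ _
  · exact continuous_const

lemma continuous_D (I : Finset ℕ) (n : ℕ) : Continuous (D I n) := by
  unfold D
  refine continuous_finsetSum _ fun π _ => ?_
  split_ifs
  · exact continuous_c _ _
  · exact continuous_const

lemma U_nonneg (I : Finset ℕ) (n : ℕ) : NN (U I n) := by
  intro x hx
  refine Finset.sum_nonneg fun π _ => ?_
  split_ifs
  · exact c_nonneg _ _ hx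
  · exact le_refl _

lemma D_nonneg (I : Finset ℕ) (n : ℕ) : NN (D I n) := by
  intro x hx
  refine Finset.sum_nonneg fun π _ => ?_
  split_ifs
  · exact c_nonneg _ _ hx
  · exact le_refl _

open Classical in
lemma U_add_D (I : Finset ℕ) (n : ℕ) (x : ℝ) : U I n x + D I n x =
    ∑ π : Perm (Fin (n + 2)), if DD π = I then c (n + 1) (lv π).val x else 0 := by
  rw [U, D, ← Finset.sum_add_distrib]
  refine Finset.sum_congr rfl fun π _ => ?_
  by_cases h1 : DD π = I <;> by_cases h2 : up π <;> simp [h1, h2]

open Classical in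
lemma sum_ext {n : ℕ} (f : Perm (Fin (n + 3)) → ℝ) :
    ∑ π, f π = ∑ π : Perm (Fin (n + 2)), ∑ k : Fin (n + 3), f (ext (k, π)) := by
  rw [← (Equiv.ofBijective _ (ext_bijective (n + 2))).sum_comp f, Fintype.sum_prod_type,
    Finset.sum_comm]
  rfl

lemma U_succ (I : Finset ℕ) (n : ℕ) (hI : ∀ i ∈ I, i < n + 2) (x : ℝ) :
    U I (n + 1) x = ∫ t in (0 : ℝ)..x, (U I n t + D I n t) := by
  classical
  simp only [U_add_D]
  rw [intervalIntegral.integral_finsetSum]
  swap
  · intro π _
    split_ifs
    · exact (continuous_c _ _).intervalIntegrable _ _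
    · exact continuous_const.intervalIntegrable _ _
  rw [U, sum_ext]
  refine Finset.sum_congr rfl fun π _ => ?_
  by_cases h : DD π = I
  · simp only [if_pos h]
    rw [int_up (n + 1) _ (by have := (lv π).isLt; omega), Finset.sum_range]
    refine Finset.sum_congr rfl fun k _ => ?_
    have h1 := DD_ext_eq (k, π) hI
    have h2 := up_ext (k, π)
    rw [lv_ext]
    by_cases h3 : (lv π).val < k.val
    · rw [if_pos h3, if_pos ⟨h1.mpr ⟨h, Or.inr (h2.mpr h3)⟩, h2.mpr h3⟩]
    · rw [if_neg h3, if_neg fun h4 => h3 (h2.mp h4.2)]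
  · simp only [if_neg h]
    rw [intervalIntegral.integral_zero]
    refine Finset.sum_eq_zero fun k _ => ?_
    rw [if_neg]
    intro h4
    exact h ((DD_ext_eq (k, π) hI).mp h4.1).1

lemma D_succ (I : Finset ℕ) (n : ℕ) (hI : ∀ i ∈ I, i < n + 2) (x : ℝ) :
    D I (n + 1) x = ∫ t in x..(1 : ℝ), U I n t := by
  classical
  simp only [U]
  rw [intervalIntegral.integral_finsetSum]
  swap
  · intro π _
    split_ifs
    · exact (continuous_c _ _).intervalIntegrable _ _
    · exact continuous_const.intervalIntegrable _ _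
  rw [D, sum_ext]
  refine Finset.sum_congr rfl fun π _ => ?_
  by_cases h : DD π = I ∧ up π
  · simp only [if_pos h]
    rw [int_dn (n + 1) _ (by have := (lv π).isLt; omega), Finset.sum_range]
    refine Finset.sum_congr rfl fun k _ => ?_
    have h1 := DD_ext_eq (k, π) hI
    have h2 := up_ext (k, π)
    rw [lv_ext]
    by_cases h3 : k.val ≤ (lv π).val
    · rw [if_pos h3, if_pos ⟨h1.mpr ⟨h.1, Or.inl h.2⟩, fun h4 => absurd (h2.mp h4) (not_lt.mpr h3)⟩]
    · rw [if_neg h3, if_neg fun h4 => h4.2 (h2.mpr (not_le.mp h3))]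
  · simp only [if_neg h]
    rw [intervalIntegral.integral_zero]
    refine Finset.sum_eq_zero fun k _ => ?_
    rw [if_neg]
    rintro ⟨h4, h5⟩
    have h6 := (DD_ext_eq (k, π) hI).mp h4
    rcases h6.2 with h7 | h7
    · exact h ⟨h6.1, h7⟩
    · exact h5 h7

lemma dd_eq (I : Finset ℕ) (n : ℕ) :
    Int (fun t => U I n t + D I n t) = (dd I (n + 2) : ℝ) / ((n + 2).factorial : ℝ) := by
  classical
  simp only [Int, U_add_D]
  rw [intervalIntegral.integral_finsetSum]
  swap
  · intro π _
    split_ifs
    · exact (continuous_c _ _).intervalIntegrable _ _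
    · exact continuous_const.intervalIntegrable _ _
  have h1 : ∀ π : Perm (Fin (n + 2)), ∫ t in (0 : ℝ)..1,
      (if DD π = I then c (n + 1) (lv π).val t else 0) =
      if DD π = I then 1 / ((n + 2).factorial : ℝ) else 0 := by
    intro π
    split_ifs
    · exact int_all (n + 1) _ (by have := (lv π).isLt; omega)
    · simp
  rw [Finset.sum_congr rfl fun π _ => h1 π, ← Finset.sum_filter, Finset.sum_const, nsmul_eq_mul,
    dd, Nat.card_eq_fintype_card, Fintype.card_subtype]
  ring

end

end Pool.Agent.V1164.DDes
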