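import Mathlib

/-!
# Double descent sets of permutations
-/

set_option autoImplicit false

namespace Pool.Agent.V1164.DDes

/-- `i` (a position counted from `1`) is a double descent of the permutation `π` of `n` letters,
whose one-line notation is `π 0, π 1, …, π (n-1)`: the entries at the positions `i - 1`, `i`,
`i + 1` are decreasing. The indices `a`, `b`, `c` are these positions counted from `0`. -/
def IsDD {n : ℕ} (π : Equiv.Perm (Fin n)) (i : ℕ) : Prop :=
  ∃ a b c : Fin n, a.val + 2 = i ∧ b.val + 1 = i ∧ c.val = i ∧ π b < π a ∧ π c < π b

open Classical in
/-- the double descent set of a permutation -/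
noncomputable def DD {n : ℕ} (π : Equiv.Perm (Fin n)) : Finset ℕ :=
  (Finset.range n).filter (IsDD π)

/-- the number of permutations of `n` letters with double descent set `I` -/
noncomputable def dd (I : Finset ℕ) (n : ℕ) : ℕ :=
  Nat.card {π : Equiv.Perm (Fin n) // DD π = I}

end Pool.Agent.V1164.DDes
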