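import Pool.Agent.V1164.DDes.Comb

/-!
# The ratio limit
-/

set_option autoImplicit false

namespace Pool.Agent.V1164.DDes

open Filter Equiv
open scoped Topology

lemma evo (I : Finset ℕ) (N : ℕ) (hI : ∀ i ∈ I, i < N + 2) :
    Evo (fun n => U I (n + N)) (fun n => D I (n + N)) := by
  refine ⟨fun n => continuous_U I _, fun n => continuous_D I _, fun n x => ?_, fun n x => ?_⟩
  · rw [show n + 1 + N = n + N + 1 by ring]
    exact U_succ I (n + N) (fun i hi => by have := hI i hi; omega) x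
  · rw [show n + 1 + N = n + N + 1 by ring]
    exact D_succ I (n + N) (fun i hi => by have := hI i hi; omega) x

lemma pos_aux (I : Finset ℕ) (N : ℕ) (hI : ∀ i ∈ I, i < N + 2) (hd : ∀ n, N ≤ n → 0 < dd I n) (n : ℕ) :
    0 < Int (U I (n + N)) + Int (U I (n + 1 + N)) := by
  have h := (evo I N hI).shift n
  have h1 := h.T_one (U_nonneg I _) (D_nonneg I _)
  simp only [zero_add] at h1
  have h2 : Int (fun t => U I (1 + n + N) t + D I (1 + n + N) t) =
      (dd I (1 + n + N + 2) : ℝ) / ((1 + n + N + 2).factorial : ℝ) := dd_eq I _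
  rw [h2] at h1
  have h3 : (0 : ℝ) < dd I (1 + n + N + 2) := by exact_mod_cast hd _ (by omega)
  have h4 : (0 : ℝ) < (dd I (1 + n + N + 2) : ℝ) / ((1 + n + N + 2).factorial : ℝ) := by positivity
  rw [show n + 1 + N = 1 + n + N by ring]
  linarith

theorem ratio (I J : Finset ℕ) (hI : ∀ᶠ n in atTop, 0 < dd I n) (hJ : ∀ᶠ n in atTop, 0 < dd J n) :
    ∃ L : ℝ, 0 < L ∧ Tendsto (fun n => (dd I n : ℝ) / dd J n) atTop (𝓝 L) := by
  obtain ⟨N1, h1⟩ := eventually_atTop.mp hI
  obtain ⟨N2, h2⟩ := eventually_atTop.mp hJ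
  set N := N1 + N2 + I.sup id + J.sup id with hN
  have hI' : ∀ i ∈ I, i < N + 2 := fun i hi => by
    have : i ≤ I.sup id := Finset.le_sup (f := id) hi
    omega
  have hJ' : ∀ i ∈ J, i < N + 2 := fun i hi => by
    have : i ≤ J.sup id := Finset.le_sup (f := id) hi
    omega
  have hdI : ∀ n, N ≤ n → 0 < dd I n := fun n hn => h1 n (by omega)
  have hdJ : ∀ n, N ≤ n → 0 < dd J n := fun n hn => h2 n (by omega)
  have hg := pos_aux I N hI' hdI 0
  obtain ⟨L, hL, ht⟩ := ratio_limit (evo I N hI') (evo J N hJ') (U_nonneg I _) (D_nonneg I _)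
    (U_nonneg J _) (D_nonneg J _) hg (pos_aux J N hJ' hdJ) (fun n => by
      have h3 : Int (fun t => U J (n + N) t + D J (n + N) t) =
        (dd J (n + N + 2) : ℝ) / ((n + N + 2).factorial : ℝ) := dd_eq J _
      rw [h3]
      have h4 : (0 : ℝ) < dd J (n + N + 2) := by exact_mod_cast hdJ _ (by omega)
      positivity)
  refine ⟨L, hL, ?_⟩
  rw [← tendsto_add_atTop_iff_nat (N + 2)]
  refine ht.congr fun n => ?_
  have h3 : Int (fun t => U J (n + N) t + D J (n + N) t) =
      (dd J (n + N + 2) : ℝ) / ((n + N + 2).factorial : ℝ) := dd_eq J _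
  have h4 : Int (fun t => U I (n + N) t + D I (n + N) t) =
      (dd I (n + N + 2) : ℝ) / ((n + N + 2).factorial : ℝ) := dd_eq I _
  rw [h3, h4, div_div_div_cancel_right₀ (by positivity)]
  rfl

/-- for `i ≥ 2` there is a permutation with double descent set `{i}` -/
lemma exists_single (i : ℕ) (hi : 2 ≤ i) : ∃ π : Perm (Fin (i + 1)), DD π = {i} := by
  refine ⟨Equiv.swap ⟨i - 2, by omega⟩ ⟨i, by omega⟩, ?_⟩
  ext j
  rw [mem_DD, Finset.mem_singleton]
  constructor
  · rintro ⟨a, b, c, ha, hb, hc, h1, h2⟩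
    by_contra hj
    have hc' := c.isLt
    have ha2 : a ≠ ⟨i - 2, by omega⟩ := by rw [Ne, Fin.ext_iff]; simp; omega
    have ha3 : a ≠ ⟨i, by omega⟩ := by rw [Ne, Fin.ext_iff]; simp; omega
    rw [Equiv.swap_apply_of_ne_of_ne ha2 ha3] at h1
    by_cases hb2 : b = ⟨i - 2, by omega⟩
    · rw [hb2, Equiv.swap_apply_left, Fin.lt_def] at h1
      simp at h1
      omega
    · have hb3 : b ≠ ⟨i, by omega⟩ := by rw [Ne, Fin.ext_iff]; simp; omega
      rw [Equiv.swap_apply_of_ne_of_ne hb2 hb3, Fin.lt_def] at h1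
      omega
  · rintro rfl
    refine ⟨⟨j - 2, by omega⟩, ⟨j - 1, by omega⟩, ⟨j, by omega⟩, by simp; omega, by simp; omega, rfl,
      ?_, ?_⟩
    · rw [Equiv.swap_apply_left, Equiv.swap_apply_of_ne_of_ne (by rw [Ne, Fin.ext_iff]; simp; omega)
        (by rw [Ne, Fin.ext_iff]; simp; omega), Fin.lt_def]
      simp; omega
    · rw [Equiv.swap_apply_right, Equiv.swap_apply_of_ne_of_ne (by rw [Ne, Fin.ext_iff]; simp; omega)
        (by rw [Ne, Fin.ext_iff]; simp; omega), Fin.lt_def]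
      simp; omega

lemma dd_pos_iff (I : Finset ℕ) (n : ℕ) : 0 < dd I n ↔ ∃ π : Perm (Fin n), DD π = I := by
  rw [dd, Nat.card_pos_iff]
  constructor
  · rintro ⟨⟨π, h⟩, _⟩
    exact ⟨π, h⟩
  · rintro ⟨π, h⟩
    exact ⟨⟨⟨π, h⟩⟩, inferInstance⟩

lemma dd_single_pos (i : ℕ) (hi : 2 ≤ i) : ∀ᶠ n in atTop, 0 < dd {i} n := by
  have key : ∀ m, 0 < dd {i} (i + 1 + m) := by
    intro m
    rw [dd_pos_iff]
    induction m with
    | zero => exact exists_single i hi
    | succ m ih =>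
      obtain ⟨k, hk⟩ : ∃ k, i + 1 + m = k + 2 := ⟨i + 1 + m - 2, by omega⟩
      rw [hk] at ih
      rw [show i + 1 + (m + 1) = k + 3 by omega]
      obtain ⟨π, hπ⟩ := ih
      refine ⟨ext (Fin.last (k + 2), π), ?_⟩
      rw [DD_ext_eq]
      · refine ⟨hπ, Or.inr ?_⟩
        rw [up_ext]
        have := (lv π).isLt
        simpa using this
      · intro j hj
        rw [Finset.mem_singleton] at hj
        omega
  rw [eventually_atTop]
  refine ⟨i + 1, fun n hn => ?_⟩
  have := key (n - (i + 1))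
  rwa [show i + 1 + (n - (i + 1)) = n by omega] at this

end Pool.Agent.V1164.DDes
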